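import Pool.Agent.Lib.MP_a54cc7_an.NotPointwise

set_option autoImplicit false

namespace Pool.Agent.Results.MP_a54cc7_an.CompactNotGeneral

open Pool.Agent.Lib.MP_a54cc7_an

theorem result (𝕜 : Type) [RCLike 𝕜] :
    ∃ (Y : Type) (_ : NormedAddCommGroup Y) (_ : NormedSpace 𝕜 Y), CompleteSpace Y ∧
      (∀ (X : Type) [NormedAddCommGroup X] [NormedSpace 𝕜 X] [CompleteSpace X],
        UniformlySmooth X → PointwiseBPBCompact 𝕜 X Y) ∧
      UniformlySmooth (lp (fun _ : ℕ => 𝕜) 4) ∧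
      PointwiseBPBCompact 𝕜 (lp (fun _ : ℕ => 𝕜) 4) Y ∧
      ¬ PointwiseBPB 𝕜 (lp (fun _ : ℕ => 𝕜) 4) Y :=
  ⟨YT 𝕜, inferInstance, inferInstance, inferInstance,
    fun _ _ _ _ hX => compact_version hX, l4_smooth, compact_version l4_smooth, not_pointwise⟩

end Pool.Agent.Results.MP_a54cc7_an.CompactNotGeneral
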